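import Pool.Agent.Helper322.LT.Fin

/-!
Level-transitivity of self-similar groups given by a recursion is undecidable, already for one
fixed alphabet size and one fixed number of generators.
-/

set_option autoImplicit false

namespace Pool.Agent.Results.MP_b2749c_lc.Undecidable

open Pool.Agent.Helper322.LT

theorem strong : ∃ d k : ℕ, 2 ≤ d ∧
    ¬ ∃ f : Data →. Bool, Partrec f ∧ ∀ R : Rec (Fin d) (Fin k), CorrectOn f R := by
  classical
  obtain ⟨K, hK, P, t, hc, hu⟩ := universal
  refine ⟨Nat.card (Lt K × ZMod 3), Nat.card (Option (Tl K)), two_le_card K, ?_⟩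
  rintro ⟨f, hf, hspec⟩
  have h1 : Computable (fun n => code (RF P (num (t n)))) := (primrec_code P).to_comp.comp hc
  have h2 : Partrec (fun n => f (code (RF P (num (t n))))) := hf.comp h1
  choose b hb hb2 using fun n => hspec (RF P (num (t n)))
  have h3 : Computable b := by
    refine Partrec.of_eq h2 fun n => ?_
    rw [hb n]
    rfl
  have h4 : Computable (fun n => !(b n)) := Primrec.not.to_comp.comp h3
  apply Univ.u_not_computable
  refine ⟨fun n => Classical.dec _, h4.of_eq fun n => ?_⟩
  have h5 : b n = true ↔ ¬ (Univ.u n).Dom := by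
    rw [hb2 n, RF_transitive_iff, hu n]
  by_cases h6 : (Univ.u n).Dom
  · have : b n = false := by
      rcases hbn : b n with _ | _
      · rfl
      · exact absurd h6 (h5.mp hbn)
    simp [this, h6]
  · have : b n = true := h5.mpr h6
    simp [this, h6]

/-- No partial recursive function `f` halts on every recursion and decides correctly whether the
group given by the recursion is level-transitive; this remains true for one fixed alphabet size
`d` and one fixed number `k` of generators. -/
theorem result :
    (¬ ∃ f : Data →. Bool, Partrec f ∧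
      ∀ (d k : ℕ) (R : Rec (Fin d) (Fin k)), 2 ≤ d → CorrectOn f R) ∧
    (∃ d k : ℕ, 2 ≤ d ∧
      ¬ ∃ f : Data →. Bool, Partrec f ∧ ∀ R : Rec (Fin d) (Fin k), CorrectOn f R) := by
  refine ⟨?_, strong⟩
  rintro ⟨f, hf, hspec⟩
  obtain ⟨d, k, hd, h⟩ := strong
  exact h ⟨f, hf, fun R => hspec d k R hd⟩

end Pool.Agent.Results.MP_b2749c_lc.Undecidable
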